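import Pool.Agent.Helper45.CF.GoalsA

/-!
# Project CF (MP_d97caa_an): packet UNV, the universal property of `C(Circle, W)`
-/

open scoped ComplexOrder Topology ComplexConjugate
open TopologicalSpace Filter

namespace Pool.Agent.Helper81.CF

open Pool.Agent.Helper45.CF

section norm

variable {Q : Type} [CStarAlgebra Q]

theorem norm_one_le : ‖(1 : Q)‖ ≤ 1 := by
  rcases subsingleton_or_nontrivial Q with h | h
  · rw [Subsingleton.elim (1 : Q) 0, norm_zero]
    exact zero_le_one
  · exact CStarRing.norm_one.le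

/-- Self-adjoint elements between `- c` and `c`. -/
theorem norm_sum_le_sa {ι : Type} (s : Finset ι) (a T : ι → Q) (ha : ∀ k, star (a k) = a k)
    (hT : ∀ k, star (T k) = T k) (hs : ∑ k ∈ s, a k * a k = 1) (c : ℝ) (hc : 0 ≤ c)
    (hb : ∀ k, a k = 0 ∨ ‖T k‖ ≤ c) : ‖∑ k ∈ s, a k * T k * a k‖ ≤ 3 * c := by
  let _ : PartialOrder Q := CStarAlgebra.spectralOrder Q
  let _ : StarOrderedRing Q := CStarAlgebra.spectralOrderedRing Q
  set X : Q := ∑ k ∈ s, a k * T k * a k with hX
  have hcs : ∑ k ∈ s, a k * algebraMap ℝ Q c * a k = algebraMap ℝ Q c := by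
    have h1 : ∀ k, a k * algebraMap ℝ Q c * a k = algebraMap ℝ Q c * (a k * a k) := by
      intro k
      rw [← Algebra.commutes c (a k), mul_assoc]
    simp only [h1]
    rw [← Finset.mul_sum, hs, mul_one]
  have hle : ∀ k, T k ≤ algebraMap ℝ Q ‖T k‖ := fun k =>
    IsSelfAdjoint.le_algebraMap_norm_self (hT k)
  have hge : ∀ k, - algebraMap ℝ Q ‖T k‖ ≤ T k := fun k =>
    IsSelfAdjoint.neg_algebraMap_norm_le_self (hT k)
  have hmono : ∀ r : ℝ, r ≤ c → algebraMap ℝ Q r ≤ algebraMap ℝ Q c := fun r hr =>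
    algebraMap_mono Q hr
  have h1 : X ≤ algebraMap ℝ Q c := by
    rw [hX, ← hcs]
    refine Finset.sum_le_sum fun k _ => ?_
    rcases hb k with h | h
    · rw [h]
      simp
    · have h2 : 0 ≤ algebraMap ℝ Q c - T k := sub_nonneg.mpr ((hle k).trans (hmono _ h))
      have h3 := star_left_conjugate_nonneg h2 (a k)
      rw [ha k, mul_sub, sub_mul] at h3
      exact sub_nonneg.mp h3
  have h2 : - algebraMap ℝ Q c ≤ X := by
    rw [hX, ← hcs, ← Finset.sum_neg_distrib]
    refine Finset.sum_le_sum fun k _ => ?_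
    rcases hb k with h | h
    · rw [h]
      simp
    · have h2 : 0 ≤ T k + algebraMap ℝ Q c := by
        have h4 := (neg_le_neg (hmono _ h)).trans (hge k)
        have h5 := sub_nonneg.mpr h4
        rwa [sub_neg_eq_add] at h5
      have h3 := star_left_conjugate_nonneg h2 (a k)
      rw [ha k, mul_add, add_mul] at h3
      rw [← sub_nonneg, sub_neg_eq_add]
      exact h3
  have h3 : 0 ≤ X + algebraMap ℝ Q c := by
    have h5 := sub_nonneg.mpr h2
    rwa [sub_neg_eq_add] at h5
  have h4 : X + algebraMap ℝ Q c ≤ algebraMap ℝ Q (2 * c) := by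
    rw [two_mul, map_add]
    exact add_le_add_left h1 _
  have h5 : ‖X + algebraMap ℝ Q c‖ ≤ 2 * c :=
    (CStarAlgebra.norm_le_iff_le_algebraMap _ (by positivity) h3).mpr h4
  have h6 : ‖algebraMap ℝ Q c‖ ≤ c := by
    rw [norm_algebraMap, Real.norm_of_nonneg hc]
    exact mul_le_of_le_one_right hc norm_one_le
  have h7 : X = (X + algebraMap ℝ Q c) - algebraMap ℝ Q c := by abel
  calc ‖X‖ = ‖(X + algebraMap ℝ Q c) - algebraMap ℝ Q c‖ := by rw [← h7]
    _ ≤ ‖X + algebraMap ℝ Q c‖ + ‖algebraMap ℝ Q c‖ := norm_sub_le _ _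
    _ ≤ 2 * c + c := add_le_add h5 h6
    _ = 3 * c := by ring

/-- The general norm bound. -/
theorem norm_sum_le {ι : Type} (s : Finset ι) (a T : ι → Q) (ha : ∀ k, star (a k) = a k)
    (hs : ∑ k ∈ s, a k * a k = 1) (c : ℝ) (hc : 0 ≤ c)
    (hb : ∀ k, a k = 0 ∨ ‖T k‖ ≤ c) : ‖∑ k ∈ s, a k * T k * a k‖ ≤ 6 * c := by
  have hre := norm_sum_le_sa s a (fun k => (2⁻¹ : ℂ) • (T k + star (T k))) ha
    (fun k => by
      rw [star_smul, star_add, star_star, add_comm]
      simp)
    hs c hc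
    (fun k => by
      rcases hb k with h | h
      · exact Or.inl h
      · right
        rw [norm_smul]
        have h1 : ‖T k + star (T k)‖ ≤ c + c := by
          refine (norm_add_le _ _).trans ?_
          rw [norm_star]
          exact add_le_add h h
        have h2 : ‖(2⁻¹ : ℂ)‖ = 2⁻¹ := by simp
        rw [h2]
        linarith)
  have him := norm_sum_le_sa s a (fun k => (2⁻¹ * Complex.I : ℂ) • (T k - star (T k))) ha
    (fun k => by
      rw [star_smul, star_sub, star_star]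
      have h1 : star (2⁻¹ * Complex.I : ℂ) = - (2⁻¹ * Complex.I) := by
        simp
      rw [h1, neg_smul, ← smul_neg, neg_sub])
    hs c hc
    (fun k => by
      rcases hb k with h | h
      · exact Or.inl h
      · right
        rw [norm_smul]
        have h1 : ‖T k - star (T k)‖ ≤ c + c := by
          refine (norm_sub_le _ _).trans ?_
          rw [norm_star]
          exact add_le_add h h
        have h2 : ‖(2⁻¹ * Complex.I : ℂ)‖ = 2⁻¹ := by simp
        rw [h2]
        linarith)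
  have hT : ∀ k, T k = (2⁻¹ : ℂ) • (T k + star (T k)) +
      (- Complex.I) • ((2⁻¹ * Complex.I : ℂ) • (T k - star (T k))) := by
    intro k
    rw [smul_smul]
    have h1 : (- Complex.I) * (2⁻¹ * Complex.I) = 2⁻¹ := by
      have := Complex.I_mul_I
      linear_combination (-(2⁻¹ : ℂ)) * this
    rw [h1, ← smul_add]
    have h2 : T k + star (T k) + (T k - star (T k)) = (2 : ℂ) • T k := by
      rw [two_smul]
      abel
    rw [h2, smul_smul]
    norm_num
  have hsum : ∑ k ∈ s, a k * T k * a k =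
      ∑ k ∈ s, a k * ((2⁻¹ : ℂ) • (T k + star (T k))) * a k +
      (- Complex.I) • ∑ k ∈ s, a k * ((2⁻¹ * Complex.I : ℂ) • (T k - star (T k))) * a k := by
    rw [Finset.smul_sum, ← Finset.sum_add_distrib]
    refine Finset.sum_congr rfl fun k _ => ?_
    conv_lhs => rw [hT k]
    rw [mul_add, add_mul, mul_smul_comm (- Complex.I), smul_mul_assoc (- Complex.I)]
  rw [hsum]
  refine (norm_add_le _ _).trans ?_
  have h3 : ‖(- Complex.I) • ∑ k ∈ s, a k * ((2⁻¹ * Complex.I : ℂ) • (T k - star (T k))) * a k‖ ≤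
      3 * c := by
    rw [norm_smul, norm_neg, Complex.norm_I, one_mul]
    exact him
  linarith

end norm

noncomputable section

/-- The inclusion of the circle. -/
def zc : C(Circle, ℂ) := ⟨fun z => (z : ℂ), continuous_subtype_val⟩

/-- A real function as a complex one. -/
def cr (l : C(Circle, ℝ)) : C(Circle, ℂ) := ⟨fun z => (l z : ℂ), by fun_prop⟩

theorem cr_apply (l : C(Circle, ℝ)) (z : Circle) : cr l z = (l z : ℂ) := rfl

theorem star_cr (l : C(Circle, ℝ)) : star (cr l) = cr l := by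
  ext z
  simp [cr_apply]

theorem cr_mul (l m : C(Circle, ℝ)) : cr (l * m) = cr l * cr m := by
  ext z
  simp [cr_apply]

/-- The functional calculus of a unitary. -/
theorem exists_nu {Q : Type} [CStarAlgebra Q] (u : Q) (h1 : star u * u = 1)
    (h2 : u * star u = 1) : ∃ ν : C(Circle, ℂ) →⋆ₐ[ℂ] Q, ν zc = u ∧
      ∀ q, u * q = q * u → star u * q = q * star u → ∀ g, ν g * q = q * ν g := by
  have hn : IsStarNormal u := ⟨by rw [commute_iff_eq, h1, h2]⟩
  have hu : u ∈ unitary Q := ⟨h1, h2⟩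
  have hsp := spectrum.subset_circle_of_unitary (𝕜 := ℂ) hu
  let c : C(spectrum ℂ u, Circle) :=
    ⟨fun x => ⟨(x : ℂ), hsp x.2⟩, by fun_prop⟩
  refine ⟨(cfcHom (R := ℂ) (a := u) hn).comp (ContinuousMap.compStarAlgHom' ℂ ℂ c), ?_, ?_⟩
  · have h3 : (ContinuousMap.compStarAlgHom' ℂ ℂ c) zc =
        (ContinuousMap.id ℂ).restrict (spectrum ℂ u) := by
      ext x
      rfl
    rw [StarAlgHom.comp_apply, h3]
    exact cfcHom_id hn
  · intro q hq hq' g
    exact Commute.cfcHom (𝕜 := ℂ) hn hq hq' _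

/-- A partition of unity with small supports. -/
structure Pou (δ : ℝ) where
  n : ℕ
  z : Fin n → Circle
  l : Fin n → C(Circle, ℝ)
  sum : ∀ x, ∑ k, l k x ^ 2 = 1
  supp : ∀ k x, l k x ≠ 0 → dist x (z k) < δ

section approx

variable {W Q : Type} [CStarAlgebra W] [CStarAlgebra Q] (σ : W →⋆ₐ[ℂ] Q)
  (ν : C(Circle, ℂ) →⋆ₐ[ℂ] Q)

/-- The sum of a family. -/
def S {ι : Type} [Fintype ι] (l : ι → C(Circle, ℝ)) (T : ι → W) : Q :=
  ∑ k, ν (cr (l k * l k)) * σ (T k)

theorem sum_nu {ι : Type} [Fintype ι] (l : ι → C(Circle, ℝ)) (h : ∀ x, ∑ k, l k x ^ 2 = 1) :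
    ∑ k, ν (cr (l k * l k)) = 1 := by
  rw [← map_sum]
  have h1 : ∑ k, cr (l k * l k) = 1 := by
    ext x
    rw [ContinuousMap.sum_apply]
    have h2 := congrArg (fun t : ℝ => (t : ℂ)) (h x)
    simp only [Complex.ofReal_sum, Complex.ofReal_pow, Complex.ofReal_one] at h2
    rw [ContinuousMap.one_apply, ← h2]
    refine Finset.sum_congr rfl fun k _ => ?_
    rw [cr_apply, ContinuousMap.mul_apply, Complex.ofReal_mul, pow_two]
  rw [h1, map_one]

theorem S_le (hc : ∀ g w, ν g * σ w = σ w * ν g) {ι : Type} [Fintype ι] (l : ι → C(Circle, ℝ))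
    (h : ∀ x, ∑ k, l k x ^ 2 = 1) (T : ι → W) (c : ℝ) (hc0 : 0 ≤ c)
    (hb : ∀ k, l k = 0 ∨ ‖T k‖ ≤ c) : ‖S σ ν l T‖ ≤ 6 * c := by
  have h1 : S σ ν l T = ∑ k, ν (cr (l k)) * σ (T k) * ν (cr (l k)) := by
    unfold S
    refine Finset.sum_congr rfl fun k _ => ?_
    rw [cr_mul, map_mul, mul_assoc, mul_assoc, hc]
  rw [h1]
  refine norm_sum_le Finset.univ (fun k => ν (cr (l k))) (fun k => σ (T k)) ?_ ?_ c hc0 ?_
  · intro k
    rw [← map_star, star_cr]
  · rw [← sum_nu ν l h]
    refine Finset.sum_congr rfl fun k _ => ?_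
    rw [cr_mul, map_mul]
  · intro k
    rcases hb k with h2 | h2
    · left
      have h3 : cr (l k) = 0 := by
        rw [h2]
        ext z
        simp [cr_apply]
      rw [h3, map_zero]
    · right
      exact (NonUnitalStarAlgHom.norm_apply_le σ (T k)).trans h2

theorem S_fst {ι κ : Type} [Fintype ι] [Fintype κ] (l : ι → C(Circle, ℝ)) (m : κ → C(Circle, ℝ))
    (h : ∀ x, ∑ k, m k x ^ 2 = 1) (T : ι → W) :
    S σ ν l T = S σ ν (fun p : ι × κ => l p.1 * m p.2) (fun p => T p.1) := by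
  unfold S
  rw [Fintype.sum_prod_type]
  refine Finset.sum_congr rfl fun k _ => ?_
  change _ = ∑ y, ν (cr (l k * m y * (l k * m y))) * σ (T k)
  rw [← Finset.sum_mul]
  congr 1
  have h1 : ∀ y, ν (cr (l k * m y * (l k * m y))) = ν (cr (l k * l k)) * ν (cr (m y * m y)) := by
    intro y
    rw [← map_mul, ← cr_mul]
    congr 2
    ring
  simp only [h1]
  rw [← Finset.mul_sum, sum_nu ν m h, mul_one]

theorem S_snd {ι κ : Type} [Fintype ι] [Fintype κ] (l : ι → C(Circle, ℝ)) (m : κ → C(Circle, ℝ))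
    (h : ∀ x, ∑ k, l k x ^ 2 = 1) (T : κ → W) :
    S σ ν m T = S σ ν (fun p : ι × κ => l p.1 * m p.2) (fun p => T p.2) := by
  unfold S
  rw [Fintype.sum_prod_type_right]
  refine Finset.sum_congr rfl fun k _ => ?_
  change _ = ∑ y, ν (cr (l y * m k * (l y * m k))) * σ (T k)
  rw [← Finset.sum_mul]
  congr 1
  have h1 : ∀ y, ν (cr (l y * m k * (l y * m k))) = ν (cr (m k * m k)) * ν (cr (l y * l y)) := by
    intro y
    rw [← map_mul, ← cr_mul]
    congr 2
    ring
  simp only [h1]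
  rw [← Finset.mul_sum, sum_nu ν l h, mul_one]

theorem S_sub {ι : Type} [Fintype ι] (l : ι → C(Circle, ℝ)) (T T' : ι → W) :
    S σ ν l T - S σ ν l T' = S σ ν l (fun k => T k - T' k) := by
  unfold S
  rw [← Finset.sum_sub_distrib]
  refine Finset.sum_congr rfl fun k _ => ?_
  rw [map_sub, mul_sub]

theorem S_mul (hc : ∀ g w, ν g * σ w = σ w * ν g) {ι κ : Type} [Fintype ι] [Fintype κ]
    (l : ι → C(Circle, ℝ)) (m : κ → C(Circle, ℝ)) (T : ι → W) (T' : κ → W) :
    S σ ν l T * S σ ν m T' =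
      S σ ν (fun p : ι × κ => l p.1 * m p.2) (fun p => T p.1 * T' p.2) := by
  unfold S
  rw [Fintype.sum_prod_type, Finset.sum_mul]
  refine Finset.sum_congr rfl fun k _ => ?_
  rw [Finset.mul_sum]
  refine Finset.sum_congr rfl fun y _ => ?_
  have h1 : ν (cr (l k * m y * (l k * m y))) = ν (cr (l k * l k)) * ν (cr (m y * m y)) := by
    rw [← map_mul, ← cr_mul]
    congr 2
    ring
  rw [h1, map_mul, mul_assoc, ← mul_assoc (σ (T k)), ← hc, mul_assoc, mul_assoc]

theorem prod_sum {ι κ : Type} [Fintype ι] [Fintype κ] (l : ι → C(Circle, ℝ))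
    (m : κ → C(Circle, ℝ)) (h : ∀ x, ∑ k, l k x ^ 2 = 1) (h' : ∀ x, ∑ k, m k x ^ 2 = 1) :
    ∀ x, ∑ p : ι × κ, (l p.1 * m p.2) x ^ 2 = 1 := by
  intro x
  rw [Fintype.sum_prod_type]
  have h1 : ∀ k, ∑ y, (l k * m y) x ^ 2 = l k x ^ 2 := by
    intro k
    have h2 : ∀ y, (l k * m y) x ^ 2 = l k x ^ 2 * m y x ^ 2 := by
      intro y
      rw [ContinuousMap.mul_apply]
      ring
    simp only [h2]
    rw [← Finset.mul_sum, h', mul_one]
  simp only [h1]
  exact h x

/-- Comparison of two partitions. -/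
theorem tau_sub (hc : ∀ g w, ν g * σ w = σ w * ν g) {δ δ' : ℝ} (P : Pou δ) (P' : Pou δ')
    (f : C(Circle, W)) (ε : ℝ) (hε : 0 ≤ ε)
    (hf : ∀ x y : Circle, dist x y < δ + δ' → ‖f x - f y‖ ≤ ε) :
    ‖S σ ν P.l (fun k => f (P.z k)) - S σ ν P'.l (fun k => f (P'.z k))‖ ≤ 6 * ε := by
  rw [S_fst σ ν P.l P'.l P'.sum, S_snd σ ν P.l P'.l P.sum (fun k => f (P'.z k)), S_sub]
  refine S_le σ ν hc _ (prod_sum _ _ P.sum P'.sum) _ ε hε ?_
  intro p
  by_cases h : P.l p.1 * P'.l p.2 = 0
  · exact Or.inl h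
  · right
    have h1 : ∃ x, (P.l p.1 * P'.l p.2) x ≠ 0 := by
      by_contra h2
      push Not at h2
      apply h
      ext x
      exact h2 x
    obtain ⟨x, hx⟩ := h1
    rw [ContinuousMap.mul_apply] at hx
    have h3 := P.supp p.1 x (left_ne_zero_of_mul hx)
    have h4 := P'.supp p.2 x (right_ne_zero_of_mul hx)
    refine hf _ _ ?_
    have h5 := dist_triangle_left (P.z p.1) (P'.z p.2) x
    linarith

/-- Multiplicativity up to the oscillation. -/
theorem tau_mul (hc : ∀ g w, ν g * σ w = σ w * ν g) {δ : ℝ} (P : Pou δ)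
    (f g : C(Circle, W)) (ε : ℝ) (hε : 0 ≤ ε)
    (hg : ∀ x y : Circle, dist x y < δ + δ → ‖g x - g y‖ ≤ ε) :
    ‖S σ ν P.l (fun k => f (P.z k)) * S σ ν P.l (fun k => g (P.z k)) -
      S σ ν P.l (fun k => (f * g) (P.z k))‖ ≤ 6 * (‖f‖ * ε) := by
  rw [S_mul σ ν hc, S_fst σ ν P.l P.l P.sum (fun k => (f * g) (P.z k)), S_sub]
  refine S_le σ ν hc _ (prod_sum _ _ P.sum P.sum) _ _ (by positivity) ?_
  intro p
  by_cases h : P.l p.1 * P.l p.2 = 0
  · exact Or.inl h
  · right
    have h1 : ∃ x, (P.l p.1 * P.l p.2) x ≠ 0 := by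
      by_contra h2
      push Not at h2
      apply h
      ext x
      exact h2 x
    obtain ⟨x, hx⟩ := h1
    rw [ContinuousMap.mul_apply] at hx
    have h3 := P.supp p.1 x (left_ne_zero_of_mul hx)
    have h4 := P.supp p.2 x (right_ne_zero_of_mul hx)
    have h5 := dist_triangle_left (P.z p.2) (P.z p.1) x
    have h6 := hg (P.z p.2) (P.z p.1) (by linarith)
    rw [ContinuousMap.mul_apply, ← mul_sub]
    refine (norm_mul_le _ _).trans ?_
    exact mul_le_mul (f.norm_coe_le_norm _) h6 (norm_nonneg _) (norm_nonneg _)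

end approx

theorem t (hP : S_POU) : S_UNV := by
  intro W Q _ _ σ u h1 h2 hcomm
  obtain ⟨ν, hν, hνc⟩ := exists_nu u h1 h2
  have hc : ∀ g w, ν g * σ w = σ w * ν g := by
    intro g w
    refine hνc (σ w) (hcomm w) ?_ g
    have h3 := congrArg star (hcomm (star w))
    rw [star_mul, star_mul, ← map_star, star_star] at h3
    exact h3.symm
  have hpou : ∀ m : ℕ, Nonempty (Pou (1 / ((m : ℝ) + 1))) := by
    intro m
    obtain ⟨n, z, l, h3, h4⟩ := hP Circle (1 / ((m : ℝ) + 1)) (by positivity)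
    exact ⟨⟨n, z, l, h3, h4⟩⟩
  have hP' : ∃ P : ∀ m : ℕ, Pou (1 / ((m : ℝ) + 1)), True :=
    ⟨fun m => (hpou m).some, trivial⟩
  obtain ⟨P, _⟩ := hP'
  have huc : ∀ (f : C(Circle, W)) (ε : ℝ), 0 < ε → ∃ N : ℕ, ∀ m ≥ N, ∀ m' ≥ N,
      ∀ x y : Circle, dist x y < 1 / ((m : ℝ) + 1) + 1 / ((m' : ℝ) + 1) → ‖f x - f y‖ ≤ ε := by
    intro f ε hε
    have huf := CompactSpace.uniformContinuous_of_continuous f.continuous
    obtain ⟨δ, hδ, hf⟩ := Metric.uniformContinuous_iff.mp huf ε hε
    obtain ⟨N, hN⟩ := exists_nat_one_div_lt (half_pos hδ)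
    refine ⟨N, fun m hm m' hm' x y hxy => ?_⟩
    have e1 : 1 / ((m : ℝ) + 1) ≤ 1 / ((N : ℝ) + 1) := by
      apply one_div_le_one_div_of_le (by positivity)
      have : (N : ℝ) ≤ m := by exact_mod_cast hm
      linarith
    have e2 : 1 / ((m' : ℝ) + 1) ≤ 1 / ((N : ℝ) + 1) := by
      apply one_div_le_one_div_of_le (by positivity)
      have : (N : ℝ) ≤ m' := by exact_mod_cast hm'
      linarith
    have h3 := hf (a := x) (b := y) (by linarith)
    rw [dist_eq_norm] at h3
    exact h3.le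
  have hcau : ∀ f : C(Circle, W),
      CauchySeq (fun m => S σ ν (P m).l (fun k => f ((P m).z k))) := by
    intro f
    rw [Metric.cauchySeq_iff]
    intro ε hε
    obtain ⟨N, hN⟩ := huc f (ε / 7) (by positivity)
    refine ⟨N, fun m hm m' hm' => ?_⟩
    rw [dist_eq_norm]
    have h3 := tau_sub σ ν hc (P m) (P m') f (ε / 7) (by positivity) (hN m hm m' hm')
    refine lt_of_le_of_lt h3 ?_
    linarith
  have hlim : ∀ f : C(Circle, W), ∃ q : Q,
      Tendsto (fun m => S σ ν (P m).l (fun k => f ((P m).z k))) atTop (𝓝 q) :=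
    fun f => cauchySeq_tendsto_of_complete (hcau f)
  choose τ hτ using hlim
  have hconst : ∀ (f : C(Circle, W)) (w : W), (∀ x, f x = w) → τ f = σ w := by
    intro f w hf
    refine tendsto_nhds_unique (hτ f) ?_
    have h3 : ∀ m, S σ ν (P m).l (fun k => f ((P m).z k)) = σ w := by
      intro m
      unfold S
      simp only [hf]
      rw [← Finset.sum_mul, sum_nu ν _ (P m).sum, one_mul]
    simp only [h3]
    exact tendsto_const_nhds
  have hadd : ∀ f g, τ (f + g) = τ f + τ g := by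
    intro f g
    refine tendsto_nhds_unique (hτ (f + g)) ?_
    have h3 := (hτ f).add (hτ g)
    refine h3.congr fun m => ?_
    unfold S
    rw [← Finset.sum_add_distrib]
    refine Finset.sum_congr rfl fun k _ => ?_
    change _ = ν (cr ((P m).l k * (P m).l k)) * σ (f ((P m).z k) + g ((P m).z k))
    rw [map_add, mul_add]
  have hmul : ∀ f g, τ (f * g) = τ f * τ g := by
    intro f g
    refine (tendsto_nhds_unique ?_ (hτ (f * g))).symm
    have h3 := (hτ f).mul (hτ g)
    have h4 : Tendsto (fun m => S σ ν (P m).l (fun k => f ((P m).z k)) *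
        S σ ν (P m).l (fun k => g ((P m).z k)) -
        S σ ν (P m).l (fun k => (f * g) ((P m).z k))) atTop (𝓝 0) := by
      rw [Metric.tendsto_atTop]
      intro ε hε
      obtain ⟨N, hN⟩ := huc g (ε / (7 * (‖f‖ + 1))) (by positivity)
      refine ⟨N, fun m hm => ?_⟩
      rw [dist_zero_right]
      have h5 := tau_mul σ ν hc (P m) f g (ε / (7 * (‖f‖ + 1))) (by positivity)
        (hN m hm m hm)
      refine lt_of_le_of_lt h5 ?_
      have h6 : ‖f‖ * (ε / (7 * (‖f‖ + 1))) ≤ ε / 7 := by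
        rw [mul_div_assoc', div_le_div_iff₀ (by positivity) (by positivity)]
        nlinarith [norm_nonneg f]
      linarith
    have h5 := h3.sub h4
    rw [sub_zero] at h5
    refine h5.congr fun m => ?_
    abel
  have hstar : ∀ f, τ (star f) = star (τ f) := by
    intro f
    refine tendsto_nhds_unique (hτ (star f)) ?_
    refine ((hτ f).star).congr fun m => ?_
    unfold S
    rw [star_sum]
    refine Finset.sum_congr rfl fun k _ => ?_
    change star (ν (cr ((P m).l k * (P m).l k)) * σ (f ((P m).z k))) =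
      ν (cr ((P m).l k * (P m).l k)) * σ (star (f ((P m).z k)))
    rw [star_mul, ← map_star ν, ← map_star σ, star_cr, ← hc]
  refine ⟨{ toFun := τ
            map_one' := ?_
            map_mul' := hmul
            map_zero' := ?_
            map_add' := hadd
            commutes' := ?_
            map_star' := hstar }, ?_, ?_⟩
  · rw [hconst 1 1 (fun x => rfl), map_one]
  · rw [hconst 0 0 (fun x => rfl), map_zero]
  · intro r
    rw [hconst (algebraMap ℂ C(Circle, W) r) (algebraMap ℂ W r) (fun x => rfl)]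
    exact AlgHomClass.commutes σ r
  · intro w
    exact hconst _ w (fun x => rfl)
  · intro f hf
    change τ f = u
    refine tendsto_nhds_unique (hτ f) ?_
    rw [← hν, Metric.tendsto_atTop]
    intro ε hε
    obtain ⟨N, hN⟩ := exists_nat_one_div_lt hε
    refine ⟨N, fun m hm => ?_⟩
    have h3 : S σ ν (P m).l (fun k => f ((P m).z k)) =
        ν (∑ k, (((P m).z k : Circle) : ℂ) • cr ((P m).l k * (P m).l k)) := by
      unfold S
      rw [map_sum]
      refine Finset.sum_congr rfl fun k _ => ?_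
      change ν (cr ((P m).l k * (P m).l k)) * σ (f ((P m).z k)) = _
      rw [hf, map_smul, map_one, map_smul, mul_smul_comm, mul_one]
    rw [dist_eq_norm, h3, ← map_sub]
    refine lt_of_le_of_lt (NonUnitalStarAlgHom.norm_apply_le ν _) ?_
    have h4 : ‖(∑ k, (((P m).z k : Circle) : ℂ) • cr ((P m).l k * (P m).l k)) - zc‖ ≤
        1 / ((m : ℝ) + 1) := by
      rw [ContinuousMap.norm_le _ (by positivity)]
      intro x
      have hx : ∑ k, (((P m).l k x ^ 2 : ℝ) : ℂ) = 1 := by
        rw [← Complex.ofReal_sum, (P m).sum x, Complex.ofReal_one]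
      have h5 : ((∑ k, (((P m).z k : Circle) : ℂ) • cr ((P m).l k * (P m).l k)) - zc) x =
          ∑ k, ((((P m).z k : Circle) : ℂ) - (x : ℂ)) * (((P m).l k x ^ 2 : ℝ) : ℂ) := by
        rw [ContinuousMap.sub_apply, ContinuousMap.sum_apply]
        simp only [sub_mul]
        rw [Finset.sum_sub_distrib, ← Finset.mul_sum, hx, mul_one]
        congr 1
        refine Finset.sum_congr rfl fun k _ => ?_
        rw [ContinuousMap.smul_apply, cr_apply, ContinuousMap.mul_apply, smul_eq_mul, pow_two]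
      rw [h5]
      refine (_root_.norm_sum_le _ _).trans ?_
      have h6 : ∀ k ∈ Finset.univ,
          ‖((((P m).z k : Circle) : ℂ) - (x : ℂ)) * (((P m).l k x ^ 2 : ℝ) : ℂ)‖ ≤
          1 / ((m : ℝ) + 1) * (P m).l k x ^ 2 := by
        intro k _
        rw [norm_mul, Complex.norm_real, Real.norm_of_nonneg (sq_nonneg _)]
        by_cases h7 : (P m).l k x = 0
        · rw [h7]
          simp
        · have h8 := (P m).supp k x h7
          rw [dist_comm] at h8
          have h9 : ‖(((P m).z k : Circle) : ℂ) - (x : ℂ)‖ < 1 / ((m : ℝ) + 1) := by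
            rw [← dist_eq_norm]
            exact h8
          exact mul_le_mul_of_nonneg_right h9.le (sq_nonneg _)
      refine (Finset.sum_le_sum h6).trans ?_
      rw [← Finset.mul_sum, (P m).sum x, mul_one]
    refine lt_of_le_of_lt h4 (lt_of_le_of_lt ?_ hN)
    apply one_div_le_one_div_of_le (by positivity)
    have : (N : ℝ) ≤ m := by exact_mod_cast hm
    linarith

end

end Pool.Agent.Helper81.CF
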